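import Pool.Agent.TH735.AQ.Crit
import Pool.Agent.TH735.AQ.Nec
import Pool.Agent.TH735.AQ.Fib
import Pool.Agent.TH128.SYZ.PsefConv

/-!
# Semiampleness of pseudo-effective line bundles on quotients of complex tori with `H^1(O) = 0`

Let `X = V / Γ` be the quotient of a complex torus of any dimension, projective or not, by any finite
group (`K_X ~_ℚ 0` means that the group contains no reflections; the theorem does not need this), with
`H^1(X, O_X) = 0`. Then pseudo-effective, nef and semiample are the same for line bundles on `X`.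

`latt`, `IsTorusQuotient` and `LineBundle` are defined in `Pool.Agent.W594.SYZ.Defs2`; `IsChernForm`,
`IsNefForm`, `IsPositiveForm` and `Induces` in `Pool.Agent.W594.SYZ.TQDefs`; `HOneZero`,
`IsFibration` and `IsSemiample` in `Pool.Agent.TH735.AQ.Defs`; `IsPseudoEffective` in
`Pool.Agent.TH128.SYZ.PsefDefs`.
-/

set_option autoImplicit false

namespace Pool.Agent.Results.MP_cda8c3_ag.TorusQuotients

open Pool.Agent.W594.SYZ2 Pool.Agent.TH735.AQ Pool.Agent.TH128.SYZ

/-- Let `X = V / Γ` be a quotient of a complex torus by a finite group with `H^1(X, O_X) = 0`, and `L`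
a line bundle on `X` with Chern form `H`. Then the following are equivalent: `L` is pseudo-effective
(it has a singular metric with semipositive curvature current); `L` is nef; `L` is semiample. If this
is the case, the fibration `X → B` defined by `L` is given by the linear map `π` whose kernel is the
kernel of `H`, so that the Iitaka dimension of `L` is the rank of `H`, its numerical dimension. -/
theorem result {V : Type*} [NormedAddCommGroup V] [NormedSpace ℂ V] [FiniteDimensional ℂ V]
    (Γ : Subgroup (V ≃ᵃ[ℂ] V)) (hΓ : IsTorusQuotient Γ) (h01 : HOneZero Γ) (L : LineBundle Γ)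
    (H : V → V → ℂ) (hc : IsChernForm L H) :
    (IsPseudoEffective L ↔ IsSemiample L) ∧ (IsNefForm H ↔ IsSemiample L) ∧
      (IsSemiample L → ∃ (n : ℕ) (Δ : Subgroup ((Fin n → ℂ) ≃ᵃ[ℂ] (Fin n → ℂ)))
        (π : V →ₗ[ℂ] (Fin n → ℂ)), (∀ v, π v = 0 ↔ ∀ w, H v w = 0) ∧
          IsFibration Γ Δ π ∧ Induces L Δ π) := by
  have hpn : IsPseudoEffective L ↔ IsNefForm H := psef_iff_nef hΓ hc
  have hns : IsNefForm H ↔ IsSemiample L := by
    refine ⟨fun hn => ?_, ?_⟩
    · obtain ⟨n, Δ, π, -, h2, h3⟩ := semiample hΓ h01 hc hn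
      exact ⟨n, Δ, π, h2, h3⟩
    · rintro ⟨n, Δ, π, h2, h3⟩
      exact (nef_of_induces hΓ hc h2 h3).1
  exact ⟨hpn.trans hns, hns, fun hp => semiample hΓ h01 hc (hns.2 hp)⟩

end Pool.Agent.Results.MP_cda8c3_ag.TorusQuotients
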